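import Pool.Agent.H59.KA.Stmts
import Pool.Agent.H33.KG.BAS
import Pool.Agent.H33.KP.WHN

/-!
# Project KA, module QGR: regularity and gradient of quadratic polynomials
-/

set_option autoImplicit false
set_option linter.unusedSectionVars false

open MeasureTheory Set Filter Topology
open scoped ContDiff

namespace Pool.Agent.H59.KA

open Pool.Agent.H84 hiding cv mn
open Pool.Agent.H84.Sym Pool.Agent.H84.Sym.P2x Pool.Agent.H19.KL
open Pool.Agent.H73.KG Pool.Agent.H20.KH Pool.Agent.H78.KP

section qgr

variable {E : Type} [NormedAddCommGroup E] [InnerProductSpace ℝ E]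
    [FiniteDimensional ℝ E] [MeasurableSpace E] [BorelSpace E]
variable {ι : Type} [Fintype ι]

theorem qgr_li (e x : E) : HasFDerivAt (li e) (innerSL ℝ e) x := (innerSL ℝ e).hasFDerivAt

/-- half of the derivative in the direction `b k` -/
noncomputable def qgr_w (b : OrthonormalBasis ι ℝ E) (B : Matrix ι ι ℝ) (c : ι → ℝ) (k : ι)
    (x : E) : ℝ := (∑ j, B k j * li (b j) x) + c k

theorem qgr_fd (b : OrthonormalBasis ι ℝ E) (B : Matrix ι ι ℝ) (c : ι → ℝ) (x : E) :
    HasFDerivAt (qf b B c) ((∑ i, ∑ j, B i j • (li (b i) x • innerSL ℝ (b j) +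
      li (b j) x • innerSL ℝ (b i))) + (2:ℝ) • ∑ i, c i • innerSL ℝ (b i)) x := by
  unfold qf
  exact HasFDerivAt.add (HasFDerivAt.fun_sum fun i _ => HasFDerivAt.fun_sum fun j _ =>
    ((qgr_li (b i) x).mul (qgr_li (b j) x)).const_mul _)
    ((HasFDerivAt.fun_sum fun i _ => (qgr_li _ _).const_mul _).const_mul _)

theorem qgr_D (b : OrthonormalBasis ι ℝ E) (B : Matrix ι ι ℝ) (c : ι → ℝ) (hB : SY B) (k : ι)
    (x : E) : D (b k) (qf b B c) x = 2 * qgr_w b B c k x := by
  classical
  rw [D, (qgr_fd b B c x).fderiv, qgr_w]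
  simp only [_root_.add_apply, sum_apply, smul_apply, smul_eq_mul, innerSL_apply_apply,
    orthonormal_iff_ite.1 b.orthonormal]
  have h1 : ∀ i, ∑ j, B i j * (li (b i) x * (if j = k then (1:ℝ) else 0) +
      li (b j) x * (if i = k then (1:ℝ) else 0)) =
      B i k * li (b i) x + (if i = k then ∑ j, B i j * li (b j) x else 0) := by
    intro i
    simp only [mul_add, Finset.sum_add_distrib]
    congr 1
    · rw [Finset.sum_eq_single k]
      · rw [if_pos rfl]; ring
      · intro j _ hj; rw [if_neg hj]; ring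
      · intro h; exact absurd (Finset.mem_univ k) h
    · split_ifs with h
      · exact Finset.sum_congr rfl fun j _ => by ring
      · simp
  rw [Finset.sum_congr rfl fun i _ => h1 i, Finset.sum_add_distrib]
  simp only [Finset.sum_ite_eq', Finset.mem_univ, if_true, mul_ite, mul_one, mul_zero]
  have h2 : ∑ i, B i k * li (b i) x = ∑ j, B k j * li (b j) x :=
    Finset.sum_congr rfl fun i _ => by rw [hB i k]
  rw [h2]
  ring

theorem qgr_gc_w (b : OrthonormalBasis ι ℝ E) (B : Matrix ι ι ℝ) (c : ι → ℝ) (k : ι) :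
    GC (qgr_w b B c k) :=
  (GC.sum fun j => (GC.const (B k j)).mul (BAS_li (b j))).add (GC.const (c k))

theorem qgr_mn {U : E → ℝ} {t C : ℝ} (hU : Pot U t C) (b : OrthonormalBasis ι ℝ E) (x : ι → ℝ) :
    mn U (∑ i, x i • b i) = ∑ i, x i * mn U (b i) := by
  unfold mn
  have : ∀ z : E, li (∑ i, x i • b i) z = ∑ i, x i * li (b i) z := by
    intro z
    unfold li
    rw [sum_inner]
    exact Finset.sum_congr rfl fun i _ => by rw [real_inner_smul_left]
  rw [integral_congr_ae (Eventually.of_forall this), integral_finsetSum]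
  · exact Finset.sum_congr rfl fun i _ => by rw [integral_const_mul]
  · intro i _
    exact ((BAS_li (b i)).integrable hU).const_mul _

theorem qgr_w_sq {U : E → ℝ} {t C : ℝ} (hU : Pot U t C) (hp : IsProbabilityMeasure (mu U))
    (b : OrthonormalBasis ι ℝ E) (B : Matrix ι ι ℝ) (c : ι → ℝ) (k : ι) :
    ∫ x, qgr_w b B c k x ^ 2 ∂(mu U) =
      (∑ i, ∑ j, B k i * (cm b U i j * B k j)) + qv b B c U k ^ 2 := by
  set e : E := ∑ i, B k i • b i with he
  have hw : ∀ x, qgr_w b B c k x = li e x + c k := by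
    intro x
    unfold qgr_w li
    rw [he, sum_inner]
    congr 1
    exact Finset.sum_congr rfl fun i _ => by rw [real_inner_smul_left]
  have h1 : cv U (li e) (li e) = ∑ i, ∑ j, B k i * (cm b U i j * B k j) := by
    rw [he, ← BAS_quad hU b (fun i => B k i)]
    simp only [dotProduct, Matrix.mulVec, Finset.mul_sum]
  have h2 : qv b B c U k = mn U e + c k := by
    rw [he, qgr_mn hU b, qv, add_comm]
  have i1 : Integrable (fun x => li e x * li e x) (mu U) :=
    ((BAS_li e).mul (BAS_li e)).integrable hU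
  have i2 : Integrable (li e) (mu U) := (BAS_li e).integrable hU
  have h3 : ∀ x, qgr_w b B c k x ^ 2 = li e x * li e x + (2 * c k * li e x + c k ^ 2) := by
    intro x; rw [hw x]; ring
  have i3 : Integrable (fun x => 2 * c k * li e x) (mu U) := i2.const_mul _
  have i4 : Integrable (fun x => 2 * c k * li e x + c k ^ 2) (mu U) := i3.add (integrable_const _)
  rw [← h1, h2, integral_congr_ae (Eventually.of_forall h3), integral_add i1 i4,
    integral_add i3 (integrable_const _), integral_const_mul, integral_const]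
  simp only [probReal_univ, smul_eq_mul, one_mul]
  unfold cv mn
  ring

/-- QGR -/
theorem qgr_thm : QGRStmt E := by
  intro ι _ b B c hB
  have hcd : ContDiff ℝ 1 (qf b B c) := by
    unfold qf
    have h : ∀ e : E, ContDiff ℝ 1 (li e) := fun e => (innerSL ℝ e).contDiff
    exact ContDiff.add (ContDiff.sum fun i _ => ContDiff.sum fun j _ =>
      contDiff_const.mul ((h _).mul (h _)))
      (contDiff_const.mul (ContDiff.sum fun i _ => contDiff_const.mul (h _)))
  have hgc : GC (qf b B c) := by
    unfold qf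
    exact GC.add (GC.sum fun i => GC.sum fun j => (GC.const _).mul
      ((BAS_li _).mul (BAS_li _))) ((GC.const _).mul (GC.sum fun i => (GC.const _).mul (BAS_li _)))
  have hsq : ∀ x, ‖fderiv ℝ (qf b B c) x‖ ^ 2 = 4 * ∑ k, qgr_w b B c k x ^ 2 := by
    intro x
    rw [← Pool.Agent.H33.KP.sum_sq_gr b, Finset.mul_sum]
    refine Finset.sum_congr rfl fun k _ => ?_
    rw [qgr_D b B c hB]
    ring
  refine ⟨hcd, hgc, ?_, ?_⟩
  · have h1 : GC (fun x => 2 * ∑ k, |qgr_w b B c k x|) :=
      (GC.const 2).mul (GC.sum fun k => (qgr_gc_w b B c k).abs)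
    refine Gr.of_le h1.2 fun x => ?_
    have h0 : 0 ≤ ∑ k, |qgr_w b B c k x| := Finset.sum_nonneg fun k _ => abs_nonneg _
    rw [abs_of_nonneg (norm_nonneg _), abs_of_nonneg (by positivity)]
    refine abs_le_of_sq_le_sq' ?_ (by positivity) |>.2
    rw [hsq x, mul_pow]
    have h2 : ∑ k, qgr_w b B c k x ^ 2 ≤ (∑ k, |qgr_w b B c k x|) ^ 2 := by
      rw [sq, Finset.sum_mul]
      refine Finset.sum_le_sum fun k hk => ?_
      rw [← sq_abs, sq]
      exact mul_le_mul_of_nonneg_left (Finset.single_le_sum (f := fun k => |qgr_w b B c k x|)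
        (fun i _ => abs_nonneg _) hk) (abs_nonneg _)
    linarith
  · intro U t hPU
    obtain ⟨⟨C, hU⟩, hp⟩ := hPU
    rw [integral_congr_ae (Eventually.of_forall hsq), integral_const_mul, integral_finsetSum]
    · congr 1
      rw [Finset.sum_congr rfl fun k _ => qgr_w_sq hU hp b B c k, Finset.sum_add_distrib]
      congr 1
      rw [Matrix.trace]
      refine Finset.sum_congr rfl fun k _ => ?_
      rw [Matrix.diag_apply, Matrix.mul_apply, Finset.sum_comm]
      refine Finset.sum_congr rfl fun j _ => ?_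
      rw [Matrix.mul_apply, Finset.sum_mul]
      refine Finset.sum_congr rfl fun i _ => ?_
      rw [hB j k]
      ring
    · intro k _
      exact (qgr_gc_w b B c k).sq.integrable hU

end qgr

end Pool.Agent.H59.KA
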