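import Pool.Agent.H59.KA.Stmts
import Pool.Agent.H87.KP.DIA

/-!
# Project KA, module QWH: whitening
-/

set_option autoImplicit false
set_option linter.unusedSectionVars false

open MeasureTheory Set Filter Topology
open scoped ContDiff

namespace Pool.Agent.H59.KA

open Pool.Agent.H84 hiding cv mn
open Pool.Agent.H84.Sym Pool.Agent.H84.Sym.P2x Pool.Agent.H19.KL
open Pool.Agent.H73.KG Pool.Agent.H20.KH Pool.Agent.H78.KP

section qwh

variable {E : Type} [NormedAddCommGroup E] [InnerProductSpace ℝ E]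
    [FiniteDimensional ℝ E] [MeasurableSpace E] [BorelSpace E]
variable {ι : Type} [Fintype ι]

theorem qwh_diag [DecidableEq ι] (m : ι → ℝ) (B : Matrix ι ι ℝ) (v : ι → ℝ) (hB : SY B) :
    Ph (Matrix.diagonal m) B v =
      (∑ i, ∑ j, m i * m j * (B i j) ^ 2) + ∑ i, m i * (v i) ^ 2 := by
  unfold Ph
  congr 1
  · refine Finset.sum_congr rfl fun i _ => ?_
    rw [Finset.sum_eq_single i]
    · refine Finset.sum_congr rfl fun k _ => ?_
      rw [Finset.sum_eq_single k]
      · simp only [Matrix.diagonal_apply_eq]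
        rw [hB k i]
        ring
      · intro j _ hj
        rw [Matrix.diagonal_apply_ne _ (Ne.symm hj)]
        ring
      · intro h; exact absurd (Finset.mem_univ k) h
    · intro j _ hj
      refine Finset.sum_eq_zero fun k _ => Finset.sum_eq_zero fun p _ => ?_
      rw [Matrix.diagonal_apply_ne _ (Ne.symm hj)]
      ring
    · intro h; exact absurd (Finset.mem_univ i) h
  · refine Finset.sum_congr rfl fun i _ => ?_
    rw [Finset.sum_eq_single i]
    · rw [Matrix.diagonal_apply_eq]; ring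
    · intro j _ hj
      rw [Matrix.diagonal_apply_ne _ (Ne.symm hj)]
      ring
    · intro h; exact absurd (Finset.mem_univ i) h

/-- QWH -/
theorem qwh_thm (hDIA : DIAStmt E) (hEIG : EIGStmt E) (hQCB : QCBStmt E) (hQDL : QDLStmt E) :
    QWHStmt E := by
  intro t g ht hGQ
  unfold GQ at hGQ
  push Not at hGQ
  obtain ⟨U, hPU, ι, hι, hd, b, B0, c0, hB0, hlt⟩ := hGQ
  obtain ⟨⟨C, hU⟩, hprob⟩ := id hPU
  obtain ⟨c, lam, hlam, hcm⟩ := hEIG U t hPU ι b
  obtain ⟨B, v, hB, hqf, hPh⟩ := hQCB U t hPU ι b c B0 c0 hB0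
  have h1l : ∀ i, 1 ≤ 1 + lam i := fun i => by linarith [hlam i]
  have h0l : ∀ i, 0 < 1 + lam i := fun i => by linarith [hlam i]
  set l : ι → ℝ := fun i => Real.sqrt (1 + lam i) with hl
  have hl0 : ∀ i, 0 < l i := fun i => Real.sqrt_pos.2 (h0l i)
  have hlsq : ∀ i, l i ^ 2 = 1 + lam i := fun i => Real.sq_sqrt (h0l i).le
  obtain ⟨hHess, hPP, hint, hcov, hD, hcd⟩ := hDIA U t hPU ι c l hl0
  have hnorm : ∀ v : E, ‖dl c l v‖ ^ 2 = ∑ i, (1 + lam i) * (inner ℝ (c i) v) ^ 2 := by
    intro v
    rw [← c.sum_sq_norm_inner_right (dl c l v)]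
    refine Finset.sum_congr rfl fun i _ => ?_
    rw [Real.norm_eq_abs, sq_abs, inner_dl, mul_pow, hlsq]
  have hlow : ∀ x v : E, t * ‖dl c l v‖ ^ 2 ≤ fderiv ℝ (fderiv ℝ U) x (dl c l v) (dl c l v) :=
    fun x v => hU.hess x _
  have hge : ∀ v : E, ‖v‖ ^ 2 ≤ ‖dl c l v‖ ^ 2 := by
    intro v
    rw [hnorm, ← c.sum_sq_norm_inner_right v]
    refine Finset.sum_le_sum fun i _ => ?_
    rw [Real.norm_eq_abs, sq_abs]
    exact le_mul_of_one_le_left (sq_nonneg _) (h1l i)
  have hPP' : PP (dU c l U) t := hPP t ht fun x v =>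
    (mul_le_mul_of_nonneg_left (hge v) ht.le).trans (hlow x v)
  obtain ⟨-, hqv, hcv⟩ := hQDL U t hPU ι c l hl0 B v
  refine ⟨ι, hι, hd, c, fun i => 1 / (1 + lam i), dU c l U,
    Matrix.of fun i j => l i * B i j * l j, fun i => l i * v i, ?_, ?_, ?_⟩
  · refine ⟨hPP', fun i => one_div_pos.2 (h0l i), fun i => ?_, ?_, ?_⟩
    · rw [div_le_one (h0l i)]
      exact h1l i
    · ext i j
      rw [hcov, hcm, Matrix.diagonal_apply, Matrix.diagonal_apply]
      split_ifs with h
      · subst h
        have : l i * l i = 1 + lam i := by rw [← hlsq]; ring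
        rw [this]
        have := (h0l i).ne'
        field_simp
        ring
      · rw [zero_div]
    · intro x v
      rw [hHess]
      refine le_trans (le_of_eq ?_) (hlow _ v)
      rw [hnorm]
      congr 1
      refine Finset.sum_congr rfl fun i _ => ?_
      have := (h0l i).ne'
      field_simp
  · intro i j
    simp only [Matrix.of_apply]
    rw [hB i j]
    ring
  · rw [hcv]
    have e1 : N2 (Matrix.of fun i j => l i * B i j * l j)
        (qv c (Matrix.of fun i j => l i * B i j * l j) (fun i => l i * v i) (dU c l U)) =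
        Ph (cm c U + 1) B (qv c B v U) := by
      have e2 : cm c U + 1 = Matrix.diagonal (fun i => 1 + lam i) := by
        rw [hcm, ← Matrix.diagonal_one, Matrix.diagonal_add]
        congr 1
        funext i
        ring
      rw [e2, qwh_diag _ _ _ hB, N2]
      congr 1
      · refine Finset.sum_congr rfl fun i _ => Finset.sum_congr rfl fun j _ => ?_
        rw [Matrix.of_apply, ← hlsq i, ← hlsq j]
        ring
      · refine Finset.sum_congr rfl fun i _ => ?_
        rw [hqv i, ← hlsq i]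
        ring
    rw [e1, ← hPh, ← hqf]
    exact hlt

end qwh

end Pool.Agent.H59.KA
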